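import Pool.Agent.Lib.MP_2127f1_co.Hedge

namespace Pool.Agent.Results.MP_2127f1_co.RealisationBound

open Pool.Agent.Lib.MP_2127f1_co

variable {V : Type} [Fintype V] [DecidableEq V]

/-- the quadratic form of the difference of two points of the complex plane of dimension two -/
def d (x y : Fin 2 → ℂ) : ℂ := (x 0 - y 0) ^ 2 + (x 1 - y 1) ^ 2

/-- equivalent realisations -/
def Equivalent (G : SimpleGraph V) (p q : V → Fin 2 → ℂ) : Prop :=
  ∀ u v, G.Adj u v → d (p u) (p v) = d (q u) (q v)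

/-- congruent realisations -/
def Congruent (p q : V → Fin 2 → ℂ) : Prop := ∀ u v, d (p u) (p v) = d (q u) (q v)

/-- the congruence classes of the realisations equivalent to a given one -/
def classes (G : SimpleGraph V) (p : V → Fin 2 → ℂ) : Set (Set (V → Fin 2 → ℂ)) :=
  {C | ∃ q, Equivalent G p q ∧ C = {r | Congruent q r}}

/-- the rigidity matrix -/
def rigidityMatrix (G : SimpleGraph V) (p : V → Fin 2 → ℂ) : Matrix G.edgeSet (V × Fin 2) ℂ :=
  fun e x => ∑ u, if (e : Sym2 V) = s(x.1, u) then p x.1 x.2 - p u x.2 else 0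

theorem result (V : Type) [Fintype V] [DecidableEq V] (G : SimpleGraph V) (p : V → Fin 2 → ℂ)
    (hp : AlgebraicIndependent ℚ fun x : V × Fin 2 => p x.1 x.2)
    (hE : G.edgeSet.ncard + 3 = 2 * Fintype.card V)
    (hR : (rigidityMatrix G p).rank + 3 = 2 * Fintype.card V) :
    (classes G p).Finite ∧ (2 : ℝ) ^ ((Fintype.card V : ℤ) - 3) ≤ (classes G p).ncard := by
  classical
  obtain ⟨m, hm⟩ : ∃ m, Fintype.card V = m + 2 := ⟨Fintype.card V - 2, by omega⟩
  have hd : ∀ e ∈ G.edgeFinset, ¬ e.IsDiag := fun e he =>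
    G.not_isDiag_of_mem_edgeSet (SimpleGraph.mem_edgeFinset.mp he)
  have hc : Fintype.card G.edgeSet = G.edgeSet.ncard := by
    rw [← Nat.card_eq_fintype_card, Nat.card_coe_set_eq]
  have hli : LinearIndependent ℂ (rigidityMatrix G p).row := by
    rw [linearIndependent_iff_card_eq_finrank_span, Set.finrank, ← Matrix.rank_eq_finrank_span_row]
    omega
  have hL : Laman Finset.univ G.edgeFinset := by
    refine ⟨hd, fun e _ => by simp, ?_, fun X _ hX => ?_⟩
    · rw [← SimpleGraph.coe_edgeFinset, Set.ncard_coe_finset] at hE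
      rw [hE, Finset.card_univ]
    · refine maxwell _ p (fun a b h => ?_) ?_ hd X hX
      · exact congrArg Prod.fst (hp.injective (a₁ := (a, 0)) (a₂ := (b, 0)) h)
      · exact hli.comp (fun e : G.edgeFinset => (⟨e.1, SimpleGraph.mem_edgeFinset.mp e.2⟩ : G.edgeSet))
          fun e e' h => Subtype.ext (congrArg Subtype.val h :)
  have h := count_classesC m hm G.edgeFinset hL p hp
  set T := {D : V → V → ℂ | ∃ q : V → Fin 2 → ℂ,
      (∀ u v, s(u, v) ∈ G.edgeFinset → ∑ i, (q u i - q v i) ^ 2 = ∑ i, (p u i - p v i) ^ 2) ∧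
      D = fun u v => ∑ i, (q u i - q v i) ^ 2} with hT
  let Φ : (V → V → ℂ) → Set (V → Fin 2 → ℂ) := fun D => {r | ∀ u v, D u v = d (r u) (r v)}
  have h1 : classes G p = Φ '' T := by
    ext C
    simp only [classes, hT, Set.mem_ofPred_eq, Set.mem_image, SimpleGraph.mem_edgeFinset,
      SimpleGraph.mem_edgeSet, Fin.sum_univ_two]
    constructor
    · rintro ⟨q, hq, rfl⟩
      exact ⟨_, ⟨q, fun u v h => (hq u v h).symm, rfl⟩, rfl⟩
    · rintro ⟨_, ⟨q, hq, rfl⟩, rfl⟩
      exact ⟨q, fun u v h => (hq u v h).symm, rfl⟩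
  have h2 : Set.InjOn Φ T := by
    rintro _ ⟨q, -, rfl⟩ D - hD
    have : q ∈ Φ D := by
      rw [← hD]
      intro u v
      simp [d]
    funext u v
    rw [this u v]
    simp [d]
  have hfin : T.Finite := Set.finite_of_ncard_pos (lt_of_lt_of_le (by positivity) h)
  rw [h1, h2.ncard_image, hm]
  refine ⟨hfin.image _, le_trans ?_ (Nat.cast_le.2 h)⟩
  push_cast
  rw [← zpow_natCast]
  exact zpow_le_zpow_right₀ one_le_two (by omega)

end Pool.Agent.Results.MP_2127f1_co.RealisationBound
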